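import Pool.Agent.H537ES.Core
import Pool.Agent.H537ES.Exist
import Pool.Agent.Helper408.Final

/-!
# Oriented trees with few levels in digraphs of large chromatic number

Owner helper950.
-/

set_option autoImplicit false

namespace Pool.Agent.H950_Lev

open Finset ES903

/-! ### elimination orders -/

theorem elim {P : Type} [DecidableEq P] (Viol : Finset P → P → Prop) (P₀ : Finset P)
    (h : ∀ S : Finset P, S ⊆ P₀ → S.Nonempty → ∃ p ∈ S, Viol (S.erase p) p) :
    ∀ (n : ℕ) (S : Finset P), S ⊆ P₀ → S.card = n →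
      ∃ τ : P → ℕ, (∀ a ∈ S, ∀ b ∈ S, τ a = τ b → a = b) ∧
        ∀ p ∈ S, Viol (S.filter (fun q => τ p < τ q)) p := by
  intro n
  induction n with
  | zero =>
    intro S _ hS
    have h0 : S = ∅ := Finset.card_eq_zero.1 hS
    subst h0
    exact ⟨fun _ => 0, by simp, by simp⟩
  | succ n ih =>
    intro S hSP hS
    have hne : S.Nonempty := Finset.card_pos.1 (by omega)
    obtain ⟨p, hp, hv⟩ := h S hSP hne
    obtain ⟨τ, hi, hτ⟩ := ih (S.erase p) ((Finset.erase_subset _ _).trans hSP)
      (by rw [Finset.card_erase_of_mem hp]; omega)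
    refine ⟨fun q => if q = p then 0 else τ q + 1, ?_, ?_⟩
    · intro a ha b hb hab
      by_cases h1 : a = p
      · by_cases h2 : b = p
        · rw [h1, h2]
        · simp [h1, h2] at hab
      · by_cases h2 : b = p
        · simp [h1, h2] at hab
        · simp only [h1, h2, if_false] at hab
          exact hi a (Finset.mem_erase.2 ⟨h1, ha⟩) b (Finset.mem_erase.2 ⟨h2, hb⟩) (by omega)
    · intro q hq
      by_cases h1 : q = p
      · subst h1
        have h2 : S.filter (fun r => (if q = q then 0 else τ q + 1) < (if r = q then 0 else τ r + 1)) =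
            S.erase q := by
          ext x
          simp only [Finset.mem_filter, Finset.mem_erase, if_true]
          by_cases hx : x = q
          · simp [hx]
          · simp [hx]
        show Viol (S.filter (fun r => (if q = q then 0 else τ q + 1) < (if r = q then 0 else τ r + 1))) q
        rw [h2]
        exact hv
      · have h2 : S.filter (fun r => (if q = p then 0 else τ q + 1) < (if r = p then 0 else τ r + 1)) =
            (S.erase p).filter (fun r => τ q < τ r) := by
          ext x
          simp only [Finset.mem_filter, Finset.mem_erase, h1, if_false]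
          by_cases hx : x = p
          · simp [hx]
          · simp [hx]
        show Viol (S.filter (fun r => (if q = p then 0 else τ q + 1) < (if r = p then 0 else τ r + 1))) q
        rw [h2]
        exact hτ q (Finset.mem_erase.2 ⟨h1, hq⟩)

/-! ### greedy embedding -/

section greedy

variable {V W : Type} [DecidableEq V] [DecidableEq W]

/-- greedy embedding of a rooted tree: `S` is a set of pairs (host vertex, level) -/
theorem greedy (R : V → V → Prop) (T : W → W → Prop) (lev : W → ℕ) (S : Finset (V × ℕ)) (k : ℕ)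
    (hout : ∀ v i, (v, i) ∈ S → (∃ a, lev a = i ∧ ∃ b, T a b) →
      ∃ N : Finset V, k ≤ N.card ∧ ∀ w ∈ N, w ≠ v ∧ R v w ∧ (w, i + 1) ∈ S)
    (hin : ∀ v i, (v, i) ∈ S → (∃ a, lev a = i ∧ ∃ b, T b a) →
      ∃ N : Finset V, k ≤ N.card ∧ ∀ w ∈ N, w ≠ v ∧ R w v ∧ (w, i - 1) ∈ S)
    (hlev : ∀ a b, T a b → lev b = lev a + 1) (t : RT W) (ht : t.Good)
    (hE : ∀ a b, t.Edge a b → T a b ∨ T b a) (u : V) (hu : (u, lev t.root) ∈ S)
    (X : Finset V) (hX : u ∉ X) (hk : X.card + t.verts.card ≤ k + 1) :
    ∃ f : W → V, f t.root = u ∧ (∀ w ∈ t.verts, f w ∉ X ∧ (f w, lev w) ∈ S) ∧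
      (∀ a ∈ t.verts, ∀ b ∈ t.verts, f a = f b → a = b) ∧
      (∀ a b, t.Edge a b → (T a b → R (f a) (f b)) ∧ (T b a → R (f b) (f a))) := by
  induction t generalizing u X with
  | node w =>
    refine ⟨fun _ => u, rfl, ?_, ?_, ?_⟩
    · intro x hx
      have hx' : x = w := Finset.mem_singleton.mp hx
      subst hx'
      exact ⟨hX, hu⟩
    · intro a ha b hb _
      have h1 : a = w := Finset.mem_singleton.mp ha
      have h2 : b = w := Finset.mem_singleton.mp hb
      rw [h1, h2]
    · intro a b hab
      exact hab.elim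
  | graft A B ihA ihB =>
    obtain ⟨hgA, hgB, hdis⟩ := ht
    have hcard : (RT.graft A B).verts.card = A.verts.card + B.verts.card :=
      Finset.card_union_of_disjoint hdis
    have hrA : A.root ∈ A.verts := RT.extract_root_mem A
    have hrB : B.root ∈ B.verts := RT.extract_root_mem B
    have hA1 : 1 ≤ A.verts.card := Finset.card_pos.2 ⟨_, hrA⟩
    have hB1 : 1 ≤ B.verts.card := Finset.card_pos.2 ⟨_, hrB⟩
    have hEA : ∀ a b, A.Edge a b → T a b ∨ T b a := fun a b h => hE a b (Or.inl h)
    have hEB : ∀ a b, B.Edge a b → T a b ∨ T b a := fun a b h => hE a b (Or.inr (Or.inl h))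
    have hER : T B.root A.root ∨ T A.root B.root := hE _ _ (Or.inr (Or.inr ⟨rfl, rfl⟩))
    obtain ⟨fB, hB2, hB3, hB4, hB5⟩ := ihB hgB hEB u hu X hX (by omega)
    -- the set of used vertices
    let Y : Finset V := X ∪ B.verts.image fB
    have hYu : u ∈ Y := Finset.mem_union_right _ (Finset.mem_image.2 ⟨B.root, hrB, hB2⟩)
    have hYc : Y.card ≤ X.card + B.verts.card :=
      (Finset.card_union_le _ _).trans (Nat.add_le_add_left Finset.card_image_le _)
    -- a new vertex for the root of `A`
    obtain ⟨v, hvY, hvS, hvR⟩ : ∃ v, v ∉ Y ∧ (v, lev A.root) ∈ S ∧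
        ((T B.root A.root → R u v) ∧ (T A.root B.root → R v u)) := by
      have hno : ¬ (T B.root A.root ∧ T A.root B.root) := by
        rintro ⟨h1, h2⟩
        have e1 := hlev _ _ h1
        have e2 := hlev _ _ h2
        omega
      have hmain : ∀ N : Finset V, k ≤ N.card → (∀ w ∈ N, w ≠ u) → ∃ w ∈ N, w ∉ Y := by
        intro N hN hNu
        by_contra hcon
        push Not at hcon
        have h1 : N ⊆ Y.erase u := fun w hw => Finset.mem_erase.2 ⟨hNu w hw, hcon w hw⟩
        have h2 := Finset.card_le_card h1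
        rw [Finset.card_erase_of_mem hYu] at h2
        have h3 : 1 ≤ Y.card := Finset.card_pos.2 ⟨u, hYu⟩
        omega
      rcases hER with h | h
      · obtain ⟨N, hN, hN2⟩ := hout u _ hu ⟨B.root, rfl, A.root, h⟩
        obtain ⟨w, hw, hwY⟩ := hmain N hN (fun w hw => (hN2 w hw).1)
        refine ⟨w, hwY, ?_, fun _ => (hN2 w hw).2.1, fun h' => absurd ⟨h, h'⟩ hno⟩
        rw [hlev _ _ h]
        exact (hN2 w hw).2.2
      · obtain ⟨N, hN, hN2⟩ := hin u _ hu ⟨B.root, rfl, A.root, h⟩
        obtain ⟨w, hw, hwY⟩ := hmain N hN (fun w hw => (hN2 w hw).1)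
        refine ⟨w, hwY, ?_, fun h' => absurd ⟨h', h⟩ hno, fun _ => (hN2 w hw).2.1⟩
        have e : lev A.root = lev B.root - 1 := by
          have := hlev _ _ h
          omega
        rw [e]
        exact (hN2 w hw).2.2
    obtain ⟨fA, hA2, hA3, hA4, hA5⟩ := ihA hgA hEA v hvS Y hvY (by omega)
    have hBA : ∀ w ∈ B.verts, w ∉ A.verts := fun w hw hwA =>
      (Finset.disjoint_left.mp hdis) hwA hw
    have hcross : ∀ a ∈ A.verts, ∀ b ∈ B.verts, fA a ≠ fB b := by
      intro a ha b hb hab
      apply (hA3 a ha).1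
      rw [hab]
      exact Finset.mem_union_right _ (Finset.mem_image_of_mem _ hb)
    have hEdA : ∀ a b, A.Edge a b → a ∈ A.verts ∧ b ∈ A.verts := fun a b h => RT.extract_edge_mem A a b h
    have hEdB : ∀ a b, B.Edge a b → a ∈ B.verts ∧ b ∈ B.verts := fun a b h => RT.extract_edge_mem B a b h
    refine ⟨fun w => if w ∈ A.verts then fA w else fB w, ?_, ?_, ?_, ?_⟩
    · show (if B.root ∈ A.verts then fA B.root else fB B.root) = u
      rw [if_neg (hBA _ hrB), hB2]
    · intro w hw
      rcases Finset.mem_union.1 hw with hw | hw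
      · simp only [hw, if_true]
        exact ⟨fun h => (hA3 w hw).1 (Finset.mem_union_left _ h), (hA3 w hw).2⟩
      · simp only [hBA w hw, if_false]
        exact hB3 w hw
    · intro a ha b hb hab
      rcases Finset.mem_union.1 ha with ha | ha <;> rcases Finset.mem_union.1 hb with hb | hb
      · simp only [ha, hb, if_true] at hab
        exact hA4 a ha b hb hab
      · simp only [ha, hBA b hb, if_true, if_false] at hab
        exact absurd hab (hcross a ha b hb)
      · simp only [hb, hBA a ha, if_true, if_false] at hab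
        exact absurd hab.symm (hcross b hb a ha)
      · simp only [hBA a ha, hBA b hb, if_false] at hab
        exact hB4 a ha b hb hab
    · intro a b hab
      rcases hab with h | h | ⟨h1, h2⟩
      · obtain ⟨m1, m2⟩ := hEdA a b h
        simp only [m1, m2, if_true]
        exact hA5 a b h
      · obtain ⟨m1, m2⟩ := hEdB a b h
        simp only [hBA a m1, hBA b m2, if_false]
        exact hB5 a b h
      · subst h1; subst h2
        simp only [hBA _ hrB, hrA, if_true, if_false, hB2, hA2]
        exact hvR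

end greedy

/-! ### the main theorem -/

section main

variable {V : Type} [Fintype V] [DecidableEq V]

open Classical in
noncomputable def outN (D : V → V → Prop) (S : Finset (V × ℕ)) (v : V) (i : ℕ) : Finset V :=
  univ.filter (fun w => w ≠ v ∧ D v w ∧ (w, i + 1) ∈ S)

open Classical in
noncomputable def inN (D : V → V → Prop) (S : Finset (V × ℕ)) (v : V) (i : ℕ) : Finset V :=
  univ.filter (fun w => w ≠ v ∧ D w v ∧ (w, i - 1) ∈ S)

def Viol (D : V → V → Prop) (k h : ℕ) (S : Finset (V × ℕ)) (p : V × ℕ) : Prop :=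
  (p.2 < h ∧ (outN D S p.1 p.2).card < k) ∨ (0 < p.2 ∧ (inN D S p.1 p.2).card < k)

theorem mem_outN (D : V → V → Prop) (S : Finset (V × ℕ)) (v w : V) (i : ℕ) :
    w ∈ outN D S v i ↔ w ≠ v ∧ D v w ∧ (w, i + 1) ∈ S := by
  simp [outN]

theorem mem_inN (D : V → V → Prop) (S : Finset (V × ℕ)) (v w : V) (i : ℕ) :
    w ∈ inN D S v i ↔ w ≠ v ∧ D w v ∧ (w, i - 1) ∈ S := by
  simp [inN]

/-- a system of levels without violations contains the tree -/
theorem embed_of_good (D : V → V → Prop) (k h : ℕ) (hk : 1 ≤ k) (S : Finset (V × ℕ))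
    (hS : S.Nonempty) (hSP : ∀ p ∈ S, p.2 ≤ h)
    (hgood : ∀ p ∈ S, ¬ Viol D k h (S.erase p) p)
    (T : Fin (k + 1) → Fin (k + 1) → Prop) (hT : (SimpleGraph.fromRel T).IsTree)
    (lev : Fin (k + 1) → ℕ) (hlev : ∀ a b, T a b → lev b = lev a + 1) (hh : ∀ a, lev a ≤ h) :
    ∃ f : Fin (k + 1) → V, Function.Injective f ∧ ∀ a b, T a b → D (f a) (f b) := by
  classical
  have hout : ∀ v i, (v, i) ∈ S → i < h → k ≤ (outN D (S.erase (v, i)) v i).card := by
    intro v i hvi hi
    by_contra hcon
    exact hgood _ hvi (Or.inl ⟨hi, lt_of_not_ge hcon⟩)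
  have hin : ∀ v i, (v, i) ∈ S → 0 < i → k ≤ (inN D (S.erase (v, i)) v i).card := by
    intro v i hvi hi
    by_contra hcon
    exact hgood _ hvi (Or.inr ⟨hi, lt_of_not_ge hcon⟩)
  -- all levels are non-empty
  have hup : ∀ v i, (v, i) ∈ S → i < h → ∃ w, (w, i + 1) ∈ S := by
    intro v i hvi hi
    have h1 := hout v i hvi hi
    obtain ⟨w, hw⟩ : (outN D (S.erase (v, i)) v i).Nonempty := Finset.card_pos.1 (by omega)
    exact ⟨w, Finset.mem_of_mem_erase ((mem_outN _ _ _ _ _).1 hw).2.2⟩
  have hdown : ∀ v i, (v, i) ∈ S → 0 < i → ∃ w, (w, i - 1) ∈ S := by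
    intro v i hvi hi
    have h1 := hin v i hvi hi
    obtain ⟨w, hw⟩ : (inN D (S.erase (v, i)) v i).Nonempty := Finset.card_pos.1 (by omega)
    exact ⟨w, Finset.mem_of_mem_erase ((mem_inN _ _ _ _ _).1 hw).2.2⟩
  have h0 : ∃ w, (w, 0) ∈ S := by
    obtain ⟨⟨v, i⟩, hvi⟩ := hS
    induction i generalizing v with
    | zero => exact ⟨v, hvi⟩
    | succ i ih =>
      obtain ⟨w, hw⟩ := hdown v (i + 1) hvi (by omega)
      exact ih w (by simpa using hw)
  have hall : ∀ j, j ≤ h → ∃ w, (w, j) ∈ S := by
    intro j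
    induction j with
    | zero => intro _; exact h0
    | succ j ih =>
      intro hj
      obtain ⟨w, hw⟩ := ih (by omega)
      exact hup w j hw (by omega)
  obtain ⟨t, ht1, ht2, ht3, ht4, _⟩ := H537ES.exists_RT' (SimpleGraph.fromRel T) hT
  obtain ⟨u, hu⟩ := hall (lev t.root) (hh _)
  obtain ⟨f, _, _, hf3, hf4⟩ := greedy D T lev S k
    (by
      rintro v i hvi ⟨a, ha, b, hb⟩
      have h1 := hlev a b hb
      have h2 := hh b
      refine ⟨outN D (S.erase (v, i)) v i, hout v i hvi (by omega), ?_⟩
      intro w hw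
      have h3 := (mem_outN _ _ _ _ _).1 hw
      exact ⟨h3.1, h3.2.1, Finset.mem_of_mem_erase h3.2.2⟩)
    (by
      rintro v i hvi ⟨a, ha, b, hb⟩
      have h1 := hlev b a hb
      refine ⟨inN D (S.erase (v, i)) v i, hin v i hvi (by omega), ?_⟩
      intro w hw
      have h3 := (mem_inN _ _ _ _ _).1 hw
      exact ⟨h3.1, h3.2.1, Finset.mem_of_mem_erase h3.2.2⟩)
    hlev t ht1
    (by
      intro a b hab
      have := ht4 a b hab
      rw [SimpleGraph.fromRel_adj] at this
      exact this.2)
    u hu ∅ (by simp) (by rw [ht2]; simp)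
  refine ⟨f, ?_, ?_⟩
  · intro a b hab
    exact hf3 a (by rw [ht2]; exact Finset.mem_univ _) b (by rw [ht2]; exact Finset.mem_univ _) hab
  · intro a b hab
    have hne : a ≠ b := by
      rintro rfl
      have := hlev a a hab
      omega
    have hadj : (SimpleGraph.fromRel T).Adj a b := by
      rw [SimpleGraph.fromRel_adj]
      exact ⟨hne, Or.inl hab⟩
    rcases ht3 a b hadj with h1 | h1
    · exact (hf4 a b h1).1 hab
    · exact (hf4 b a h1).2 hab

/-- **Oriented trees with few levels.** -/
theorem main (D : V → V → Prop) (k h : ℕ) (hk : 1 ≤ k)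
    (hchi : ¬ (SimpleGraph.fromRel D).Colorable (h * (4 * k - 3)))
    (T : Fin (k + 1) → Fin (k + 1) → Prop) (hT : (SimpleGraph.fromRel T).IsTree)
    (lev : Fin (k + 1) → ℕ) (hlev : ∀ a b, T a b → lev b = lev a + 1) (hh : ∀ a, lev a ≤ h) :
    ∃ f : Fin (k + 1) → V, Function.Injective f ∧ ∀ a b, T a b → D (f a) (f b) := by
  classical
  by_contra hno
  let P₀ : Finset (V × ℕ) := univ ×ˢ range (h + 1)
  have hP : ∀ S : Finset (V × ℕ), S ⊆ P₀ → S.Nonempty → ∃ p ∈ S, Viol D k h (S.erase p) p := by
    intro S hSP hS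
    by_contra hcon
    push Not at hcon
    apply hno
    refine embed_of_good D k h hk S hS ?_ hcon T hT lev hlev hh
    intro p hp
    have := hSP hp
    simp only [P₀, Finset.mem_product, Finset.mem_range] at this
    omega
  obtain ⟨τ, hinj, hτ⟩ := elim (Viol D k h) P₀ hP P₀.card P₀ (Finset.Subset.refl _) rfl
  have hmem : ∀ v i, i ≤ h → (v, i) ∈ P₀ := by
    intro v i hi
    simp only [P₀, Finset.mem_product, Finset.mem_range, Finset.mem_univ, true_and]
    omega
  let Out : V → ℕ → Prop := fun v i =>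
    i < h ∧ (outN D (P₀.filter (fun q => τ (v, i) < τ q)) v i).card < k
  let In : V → ℕ → Prop := fun v i =>
    0 < i ∧ (inN D (P₀.filter (fun q => τ (v, i) < τ q)) v i).card < k
  have hOI : ∀ v i, i ≤ h → Out v i ∨ In v i := fun v i hi => hτ (v, i) (hmem v i hi)
  have hcls : ∀ v, ∃ i, i < h ∧ Out v i ∧ In v (i + 1) := by
    intro v
    by_contra hcon
    push Not at hcon
    have h1 : ∀ i, i ≤ h → Out v i := by
      intro i
      induction i with
      | zero =>
        intro _
        rcases hOI v 0 (by omega) with h2 | h2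
        · exact h2
        · exact absurd h2.1 (lt_irrefl 0)
      | succ i ih =>
        intro hi
        rcases hOI v (i + 1) hi with h2 | h2
        · exact h2
        · exact absurd h2 (hcon i (by omega) (ih (by omega)))
    exact absurd (h1 h le_rfl).1 (lt_irrefl h)
  choose cls hcl1 hcl2 hcl3 using hcls
  set G := SimpleGraph.fromRel D with hG
  have hadj : ∀ a b, G.Adj a b ↔ a ≠ b ∧ (D a b ∨ D b a) := by
    intro a b
    rw [hG, SimpleGraph.fromRel_adj]
  -- every class is degenerate
  have hcol : ∀ i, ∃ c : V → Fin (4 * k - 4 + 1), ∀ a b, cls a = i → cls b = i → G.Adj a b →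
      c a ≠ c b := by
    intro i
    let Gi : SimpleGraph V := SimpleGraph.mk (fun a b => G.Adj a b ∧ cls a = i ∧ cls b = i)
      (by constructor; intro a b hab; exact ⟨hab.1.symm, hab.2.2, hab.2.1⟩)
      (by constructor; intro a ha; exact G.loopless.irrefl a ha.1)
    have hGi : Gi.Colorable (4 * k - 4 + 1) := by
      apply Pool.Agent.Helper408.Final.colorable_of_degenerate
      intro S hS
      by_contra hcon
      push Not at hcon
      have hcS : ∀ v ∈ S, cls v = i := by
        intro v hv
        have h1 := hcon v hv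
        obtain ⟨w, hw⟩ : (S.filter (fun w => Gi.Adj v w)).Nonempty := Finset.card_pos.1 (by omega)
        exact (Finset.mem_filter.1 hw).2.2.1
      let o : V → ℕ := fun v => (S.filter (fun w => w ≠ v ∧ D v w)).card
      let o' : V → ℕ := fun v => (S.filter (fun w => w ≠ v ∧ D w v)).card
      let o1 : V → ℕ := fun v => (S.filter (fun w => (w ≠ v ∧ D v w) ∧ τ (v, i) < τ (w, i + 1))).card
      let o2 : V → ℕ := fun v => (S.filter (fun w => (w ≠ v ∧ D v w) ∧ τ (w, i + 1) < τ (v, i))).card
      have hdeg : ∀ v ∈ S, (S.filter (fun w => Gi.Adj v w)).card ≤ o v + o' v := by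
        intro v _
        refine (Finset.card_le_card ?_).trans (Finset.card_union_le _ _)
        intro w hw
        obtain ⟨hw1, hw2, _⟩ := Finset.mem_filter.1 hw
        have hw3 := (hadj v w).1 hw2
        rw [Finset.mem_union, Finset.mem_filter, Finset.mem_filter]
        rcases hw3.2 with h1 | h1
        · exact Or.inl ⟨hw1, hw3.1.symm, h1⟩
        · exact Or.inr ⟨hw1, hw3.1.symm, h1⟩
      have hsw : ∑ v ∈ S, o' v = ∑ v ∈ S, o v := by
        simp only [o, o', Finset.card_filter]
        rw [Finset.sum_comm]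
        refine Finset.sum_congr rfl fun x _ => Finset.sum_congr rfl fun y _ => ?_
        congr 1
        rw [eq_iff_iff]
        constructor
        · rintro ⟨h1, h2⟩; exact ⟨h1.symm, h2⟩
        · rintro ⟨h1, h2⟩; exact ⟨h1.symm, h2⟩
      have ho : ∀ v ∈ S, o v ≤ o1 v + o2 v := by
        intro v hv
        refine (Finset.card_le_card ?_).trans (Finset.card_union_le _ _)
        intro w hw
        obtain ⟨hw1, hw2⟩ := Finset.mem_filter.1 hw
        rw [Finset.mem_union, Finset.mem_filter, Finset.mem_filter]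
        have hne : τ (v, i) ≠ τ (w, i + 1) := by
          intro he
          have hi : i < h := hcS v hv ▸ hcl1 v
          have := hinj _ (hmem v i (by omega)) _ (hmem w (i + 1) (by omega)) he
          simp at this
        rcases lt_or_gt_of_ne hne with h1 | h1
        · exact Or.inl ⟨hw1, hw2, h1⟩
        · exact Or.inr ⟨hw1, hw2, h1⟩
      have ho1 : ∀ v ∈ S, o1 v ≤ k - 1 := by
        intro v hv
        have h1 : Out v i := hcS v hv ▸ hcl2 v
        have h2 : o1 v ≤ (outN D (P₀.filter (fun q => τ (v, i) < τ q)) v i).card := by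
          apply Finset.card_le_card
          intro w hw
          obtain ⟨_, hw2, hw3⟩ := Finset.mem_filter.1 hw
          rw [mem_outN]
          exact ⟨hw2.1, hw2.2, Finset.mem_filter.2 ⟨hmem _ _ h1.1, hw3⟩⟩
        have := h1.2
        omega
      have ho2 : ∑ v ∈ S, o2 v ≤ S.card * (k - 1) := by
        have h1 : ∑ v ∈ S, o2 v =
            ∑ w ∈ S, (S.filter (fun v => (w ≠ v ∧ D v w) ∧ τ (w, i + 1) < τ (v, i))).card := by
          simp only [o2, Finset.card_filter]
          rw [Finset.sum_comm]
        rw [h1, ← smul_eq_mul]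
        refine Finset.sum_le_card_nsmul S _ _ ?_
        intro w hw
        have h2 : In w (i + 1) := hcS w hw ▸ hcl3 w
        have h3 : i < h := hcS w hw ▸ hcl1 w
        have h4 : (S.filter (fun v => (w ≠ v ∧ D v w) ∧ τ (w, i + 1) < τ (v, i))).card ≤
            (inN D (P₀.filter (fun q => τ (w, i + 1) < τ q)) w (i + 1)).card := by
          apply Finset.card_le_card
          intro v hv
          obtain ⟨_, hv2, hv3⟩ := Finset.mem_filter.1 hv
          rw [mem_inN]
          exact ⟨hv2.1.symm, hv2.2, Finset.mem_filter.2 ⟨hmem _ _ (by omega), by simpa using hv3⟩⟩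
        have := h2.2
        omega
      have hs1 : S.card * (4 * k - 4 + 1) ≤ ∑ v ∈ S, (S.filter (fun w => Gi.Adj v w)).card := by
        rw [← smul_eq_mul]
        exact Finset.card_nsmul_le_sum S _ _ (fun v hv => hcon v hv)
      have hs2 := Finset.sum_le_sum hdeg
      rw [Finset.sum_add_distrib, hsw] at hs2
      have hs3 := Finset.sum_le_sum ho
      rw [Finset.sum_add_distrib] at hs3
      have hs4 : ∑ v ∈ S, o1 v ≤ S.card * (k - 1) := by
        rw [← smul_eq_mul]
        exact Finset.sum_le_card_nsmul S _ _ ho1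
      have hpos : 0 < S.card := Finset.card_pos.2 hS
      obtain ⟨m, rfl⟩ : ∃ m, k = m + 1 := ⟨k - 1, by omega⟩
      have e1 : 4 * (m + 1) - 4 + 1 = 4 * m + 1 := by omega
      have e2 : m + 1 - 1 = m := by omega
      rw [e1] at hs1
      rw [e2] at hs4 ho2
      nlinarith
    obtain ⟨c⟩ := hGi
    exact ⟨c, fun a b ha hb hab => c.valid ⟨hab, ha, hb⟩⟩
  choose c hc using hcol
  apply hchi
  have hcolor : G.Colorable (Fintype.card (Fin h × Fin (4 * k - 4 + 1))) := by
    refine (SimpleGraph.Coloring.mk (fun v => ((⟨cls v, hcl1 v⟩ : Fin h), c (cls v) v)) ?_).colorable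
    intro a b hab heq
    have h1 : cls a = cls b := by
      have := congrArg (fun x => (x.1 : ℕ)) heq
      simpa using this
    have h2 : c (cls a) a = c (cls b) b := (Prod.mk.inj heq).2
    rw [← h1] at h2
    exact hc (cls a) a b rfl h1.symm hab h2
  simp only [Fintype.card_prod, Fintype.card_fin] at hcolor
  have e : 4 * k - 4 + 1 = 4 * k - 3 := by omega
  rw [e] at hcolor
  exact hcolor

end main

end Pool.Agent.H950_Lev
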